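import Mathlib
import Pool.Agent.Helper11.TF.Lip
import Pool.Agent.Helper9.TF.StepDefs

/-!
# Module L: elementary facts on `gam`, `gamy`, `gamt`, conjugation
-/

namespace Pool.Agent.Helper17.TF

open Complex Finset Filter Topology
open Pool.Agent.Helper9.TB Pool.Agent.Helper9.TF

/-- complex conjugation of a function -/
noncomputable def cj (F : ℂ → ℂ) (y : ℂ) : ℂ := (starRingEnd ℂ) (F ((starRingEnd ℂ) y))

theorem gm_conj (N m : ℕ) (y : ℂ) :
    gm N m ((starRingEnd ℂ) y) = (starRingEnd ℂ) (gm N m y) := by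
  unfold gm
  simp only [map_div₀, map_prod, map_pow, map_mul, Complex.conj_ofReal]
  congr 1
  refine Finset.prod_congr rfl fun k _ => ?_
  rw [← Complex.cos_conj, ← Complex.cos_conj]
  simp only [map_mul, map_add, map_sub, Complex.conj_ofReal, map_ofNat]

theorem fch_succ (N : ℕ) (a : ℕ → ℕ) (n : ℕ) :
    fch N a (n + 1) = cj (nx N (a n) (hgt a n) (fch N a n)) := by
  funext y
  simp only [fch, cj, nx, map_sum, map_mul, gm_conj, Complex.conj_conj]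

theorem cc_conj {u : ℂ} (hu : |u.re| < 1 / 2) :
    cc ((starRingEnd ℂ) u) = (starRingEnd ℂ) (cc u) := by
  unfold cc
  have h1 : (2 * Complex.cos (Real.pi * (starRingEnd ℂ) u)) =
      (starRingEnd ℂ) (2 * Complex.cos (Real.pi * u)) := by
    rw [map_mul, ← Complex.cos_conj, map_mul, Complex.conj_ofReal, map_ofNat]
  rw [h1, Complex.log_conj]
  intro h
  have h2 : (2 * Complex.cos (Real.pi * u)).re < 0 := by
    rw [Complex.arg_eq_pi_iff] at h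
    exact h.1
  have h3 : (2 * Complex.cos (Real.pi * u)).re = 2 * (Real.cos (Real.pi * u.re) * Real.cosh (Real.pi * u.im)) := by
    rw [show (2 * Complex.cos (Real.pi * u)).re = 2 * (Complex.cos (Real.pi * u)).re by simp]
    congr 1
    have : (Real.pi * u : ℂ) = ((Real.pi * u.re : ℝ) : ℂ) + ((Real.pi * u.im : ℝ) : ℂ) * I := by
      apply Complex.ext <;> simp
    rw [this, Complex.cos_add, Complex.cos_mul_I, Complex.sin_mul_I]
    rw [← Complex.ofReal_cos, ← Complex.ofReal_sin, ← Complex.ofReal_cosh, ← Complex.ofReal_sinh]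
    simp only [Complex.sub_re, Complex.mul_re, Complex.mul_im, Complex.ofReal_re,
      Complex.ofReal_im, Complex.I_re, Complex.I_im, mul_zero, zero_mul, sub_zero, mul_one,
      add_zero]
  rw [h3] at h2
  have h4 : 0 < Real.cos (Real.pi * u.re) := by
    apply Real.cos_pos_of_mem_Ioo
    rw [abs_lt] at hu
    constructor <;> nlinarith [Real.pi_pos]
  have h5 : 0 < Real.cosh (Real.pi * u.im) := Real.cosh_pos _
  nlinarith [mul_pos h4 h5]

theorem CC_conj {u : ℂ} (hu : |u.re| < 1 / 2) :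
    CC ((starRingEnd ℂ) u) = (starRingEnd ℂ) (CC u) := by
  unfold CC
  rw [map_mul]
  congr 1
  rw [← intervalIntegral.intervalIntegral_conj]
  refine intervalIntegral.integral_congr fun s hs => ?_
  rw [Set.uIcc_of_le zero_le_one] at hs
  have h1 : |((s : ℂ) * u).re| < 1 / 2 := by
    simp only [Complex.re_ofReal_mul, abs_mul]
    calc |s| * |u.re| ≤ 1 * |u.re| := by
          gcongr
          rw [abs_of_nonneg hs.1]; exact hs.2
      _ < 1 / 2 := by rw [one_mul]; exact hu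
  have h2 := cc_conj h1
  rw [map_mul, Complex.conj_ofReal] at h2
  exact h2


theorem abs_re_lt {u : ℂ} (hu : ‖u - 1 / 4‖ < 1 / 4) : |u.re| < 1 / 2 := by
  have h1 : |(u - 1 / 4).re| < 1 / 4 := lt_of_le_of_lt (Complex.abs_re_le_norm _) hu
  have h2 : (u - 1 / 4).re = u.re - 1 / 4 := by simp
  rw [h2, abs_lt] at h1
  rw [abs_lt]
  constructor <;> linarith [h1.1, h1.2]

theorem re3 {y t : ℂ} (hy : ‖y‖ < 1 / 20) (ht : ‖t - 1 / 4‖ < 1 / 20) :
    |(t + y).re| < 1 / 2 ∧ |(t - y).re| < 1 / 2 ∧ |(t - 1 / 2).re| < 1 / 2 := by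
  refine ⟨abs_re_lt ?_, abs_re_lt ?_, ?_⟩
  · calc ‖t + y - 1 / 4‖ = ‖(t - 1 / 4) + y‖ := by congr 1; ring
      _ ≤ ‖t - 1 / 4‖ + ‖y‖ := norm_add_le _ _
      _ < 1 / 4 := by linarith
  · calc ‖t - y - 1 / 4‖ = ‖(t - 1 / 4) - y‖ := by congr 1; ring
      _ ≤ ‖t - 1 / 4‖ + ‖y‖ := norm_sub_le _ _
      _ < 1 / 4 := by linarith
  · have h1 : |(t - 1 / 4).re| < 1 / 4 := lt_of_le_of_lt (Complex.abs_re_le_norm _) (by linarith)
    have h2 : (t - 1 / 4).re = t.re - 1 / 4 := by simp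
    have h3 : (t - 1 / 2).re = t.re - 1 / 2 := by simp
    rw [h2, abs_lt] at h1
    rw [h3, abs_lt]
    constructor <;> linarith [h1.1, h1.2]

theorem conj_half : (starRingEnd ℂ) (1 / 2 : ℂ) = 1 / 2 := by
  rw [map_div₀, map_one, map_ofNat]

theorem conj_quarter : (starRingEnd ℂ) (1 / 4 : ℂ) = 1 / 4 := by
  rw [map_div₀, map_one, map_ofNat]

theorem gamy_conj {y t : ℂ} (hy : ‖y‖ < 1 / 20) (ht : ‖t - 1 / 4‖ < 1 / 20) :
    gamy ((starRingEnd ℂ) y) ((starRingEnd ℂ) t) = (starRingEnd ℂ) (gamy y t) := by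
  obtain ⟨h1, h2, h3⟩ := re3 hy ht
  unfold gamy
  rw [← map_add, ← map_sub, cc_conj h1, cc_conj h2, map_sub]

theorem gamt_conj {y t : ℂ} (hy : ‖y‖ < 1 / 20) (ht : ‖t - 1 / 4‖ < 1 / 20) :
    gamt ((starRingEnd ℂ) y) ((starRingEnd ℂ) t) = (starRingEnd ℂ) (gamt y t) := by
  obtain ⟨h1, h2, h3⟩ := re3 hy ht
  unfold gamt
  rw [← map_add, ← map_sub, ← conj_half, ← map_sub, conj_half, cc_conj h1, cc_conj h2, cc_conj h3,
    map_sub, map_add, map_mul, map_ofNat]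

theorem gam_conj {y t : ℂ} (hy : ‖y‖ < 1 / 20) (ht : ‖t - 1 / 4‖ < 1 / 20) :
    gam ((starRingEnd ℂ) y) ((starRingEnd ℂ) t) = (starRingEnd ℂ) (gam y t) := by
  obtain ⟨h1, h2, h3⟩ := re3 hy ht
  unfold gam
  rw [← map_add, ← map_sub, ← conj_half, ← map_sub, conj_half, CC_conj h1, CC_conj h2, CC_conj h3,
    map_sub, map_add, map_mul, map_ofNat]

theorem cc_lip {u v : ℂ} (hu : ‖u - 1 / 4‖ < 1 / 200) (hv : ‖v - 1 / 4‖ < 1 / 200) :
    ‖cc u - cc v‖ ≤ 4 * ‖u - v‖ := by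
  have hy : ‖(u - v) / 2‖ < 1 / 200 := by
    rw [norm_div, Complex.norm_ofNat]
    have : ‖u - v‖ ≤ ‖u - 1 / 4‖ + ‖v - 1 / 4‖ := by
      calc ‖u - v‖ = ‖(u - 1 / 4) - (v - 1 / 4)‖ := by congr 1; ring
        _ ≤ _ := norm_sub_le _ _
    linarith
  have ht : ‖(u + v) / 2 - 1 / 4‖ < 1 / 200 := by
    have : ‖(u + v) / 2 - 1 / 4‖ ≤ (‖u - 1 / 4‖ + ‖v - 1 / 4‖) / 2 := by
      calc ‖(u + v) / 2 - 1 / 4‖ = ‖((u - 1 / 4) + (v - 1 / 4)) / 2‖ := by congr 1; ring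
        _ = ‖(u - 1 / 4) + (v - 1 / 4)‖ / 2 := by rw [norm_div, Complex.norm_ofNat]
        _ ≤ _ := by gcongr; exact norm_add_le _ _
    linarith
  have h := gamy_lip hy (z := 0) (by simp) ht
  have h1 : gamy ((u - v) / 2) ((u + v) / 2) = cc u - cc v := by
    unfold gamy; congr 2 <;> ring
  have h2 : gamy 0 ((u + v) / 2) = 0 := by unfold gamy; simp
  rw [h1, h2] at h
  simp only [sub_zero] at h
  have h3 : ‖(u - v) / 2‖ = ‖u - v‖ / 2 := by rw [norm_div, Complex.norm_ofNat]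
  have h4 : ‖(2 : ℂ) * Real.pi * ((u - v) / 2)‖ = Real.pi * ‖u - v‖ := by
    rw [norm_mul, norm_mul, h3, Complex.norm_ofNat, Complex.norm_real, Real.norm_of_nonneg Real.pi_pos.le]
    ring
  have h5 : ‖cc u - cc v‖ ≤ ‖cc u - cc v + 2 * Real.pi * ((u - v) / 2)‖ + ‖(2 : ℂ) * Real.pi * ((u - v) / 2)‖ := by
    calc ‖cc u - cc v‖ = ‖(cc u - cc v + 2 * Real.pi * ((u - v) / 2)) - 2 * Real.pi * ((u - v) / 2)‖ := by
          congr 1; ring
      _ ≤ _ := norm_sub_le _ _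
  rw [h3] at h
  rw [h4] at h5
  have h6 : Real.pi < 3.15 := Real.pi_lt_d2
  nlinarith [norm_nonneg (u - v)]

theorem near_add {y t : ℂ} (hy : ‖y‖ < 1 / 400) (ht : ‖t - 1 / 4‖ ≤ 1 / 400) :
    ‖t + y - 1 / 4‖ < 1 / 200 ∧ ‖t - y - 1 / 4‖ < 1 / 200 := by
  constructor
  · calc ‖t + y - 1 / 4‖ = ‖(t - 1 / 4) + y‖ := by congr 1; ring
      _ ≤ ‖t - 1 / 4‖ + ‖y‖ := norm_add_le _ _
      _ < 1 / 200 := by linarith
  · calc ‖t - y - 1 / 4‖ = ‖(t - 1 / 4) - y‖ := by congr 1; ring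
      _ ≤ ‖t - 1 / 4‖ + ‖y‖ := norm_sub_le _ _
      _ < 1 / 200 := by linarith

theorem gamy_lip_t {y t s : ℂ} (hy : ‖y‖ < 1 / 400) (ht : ‖t - 1 / 4‖ ≤ 1 / 400)
    (hs : ‖s - 1 / 4‖ ≤ 1 / 400) : ‖gamy y t - gamy y s‖ ≤ 8 * ‖t - s‖ := by
  have h1 := cc_lip (near_add hy ht).1 (near_add hy hs).1
  have h2 := cc_lip (near_add hy ht).2 (near_add hy hs).2
  have h3 : t + y - (s + y) = t - s := by ring
  have h4 : t - y - (s - y) = t - s := by ring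
  rw [h3] at h1
  rw [h4] at h2
  calc ‖gamy y t - gamy y s‖ = ‖(cc (t + y) - cc (s + y)) - (cc (t - y) - cc (s - y))‖ := by
        unfold gamy; congr 1; ring
    _ ≤ ‖cc (t + y) - cc (s + y)‖ + ‖cc (t - y) - cc (s - y)‖ := norm_sub_le _ _
    _ ≤ 8 * ‖t - s‖ := by linarith

theorem gamt_lip_y {y z t : ℂ} (hy : ‖y‖ < 1 / 400) (hz : ‖z‖ < 1 / 400)
    (ht : ‖t - 1 / 4‖ ≤ 1 / 400) : ‖gamt y t - gamt z t‖ ≤ 8 * ‖y - z‖ := by
  have h1 := cc_lip (near_add hy ht).1 (near_add hz ht).1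
  have h2 := cc_lip (near_add hy ht).2 (near_add hz ht).2
  have h3 : t + y - (t + z) = y - z := by ring
  have h4 : ‖t - y - (t - z)‖ = ‖y - z‖ := by rw [← norm_neg]; congr 1; ring
  rw [h3] at h1
  rw [h4] at h2
  calc ‖gamt y t - gamt z t‖ = ‖(cc (t + y) - cc (t + z)) + (cc (t - y) - cc (t - z))‖ := by
        unfold gamt; congr 1; ring
    _ ≤ ‖cc (t + y) - cc (t + z)‖ + ‖cc (t - y) - cc (t - z)‖ := norm_add_le _ _
    _ ≤ 8 * ‖y - z‖ := by linarith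

theorem norm_two_pi (x : ℂ) : ‖2 * Real.pi * x‖ = 2 * Real.pi * ‖x‖ := by
  rw [norm_mul, norm_mul, Complex.norm_ofNat, Complex.norm_real, Real.norm_of_nonneg Real.pi_pos.le]

theorem norm_four_pi (x : ℂ) : ‖4 * Real.pi * x‖ = 4 * Real.pi * ‖x‖ := by
  rw [norm_mul, norm_mul, Complex.norm_ofNat, Complex.norm_real, Real.norm_of_nonneg Real.pi_pos.le]

theorem gamy_lip_y {y z t : ℂ} (hy : ‖y‖ < 1 / 400) (hz : ‖z‖ < 1 / 400)
    (ht : ‖t - 1 / 4‖ ≤ 1 / 400) : ‖gamy y t - gamy z t‖ ≤ 8 * ‖y - z‖ := by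
  have h := gamy_lip (y := y) (z := z) (t := t) (by linarith) (by linarith) (by linarith)
  have h5 : ‖gamy y t - gamy z t‖ ≤ ‖gamy y t - gamy z t + 2 * Real.pi * (y - z)‖ + ‖2 * Real.pi * (y - z)‖ := by
    calc ‖gamy y t - gamy z t‖ = ‖(gamy y t - gamy z t + 2 * Real.pi * (y - z)) - 2 * Real.pi * (y - z)‖ := by
          congr 1; ring
      _ ≤ _ := norm_sub_le _ _
  rw [norm_two_pi] at h5
  have h6 : Real.pi < 3.15 := Real.pi_lt_d2
  nlinarith [norm_nonneg (y - z)]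

theorem gamt_lip_t {y t s : ℂ} (hy : ‖y‖ < 1 / 400) (ht : ‖t - 1 / 4‖ ≤ 1 / 400)
    (hs : ‖s - 1 / 4‖ ≤ 1 / 400) : ‖gamt y t - gamt y s‖ ≤ 16 * ‖t - s‖ := by
  have h := gamt_lip (y := y) (t := t) (s := s) (by linarith) (by linarith) (by linarith)
  have h5 : ‖gamt y t - gamt y s‖ ≤ ‖gamt y t - gamt y s + 4 * Real.pi * (t - s)‖ + ‖4 * Real.pi * (t - s)‖ := by
    calc ‖gamt y t - gamt y s‖ = ‖(gamt y t - gamt y s + 4 * Real.pi * (t - s)) - 4 * Real.pi * (t - s)‖ := by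
          congr 1; ring
      _ ≤ _ := norm_sub_le _ _
  rw [norm_four_pi] at h5
  have h6 : Real.pi < 3.15 := Real.pi_lt_d2
  nlinarith [norm_nonneg (t - s)]

theorem gamy_bd {y t : ℂ} (hy : ‖y‖ < 1 / 400) (ht : ‖t - 1 / 4‖ ≤ 1 / 400) :
    ‖gamy y t‖ ≤ 1 := by
  have h := gamy_lip_y hy (z := 0) (by simp) ht
  have h2 : gamy 0 t = 0 := by unfold gamy; simp
  rw [h2, sub_zero, sub_zero] at h
  linarith

theorem gamt_bd {y t : ℂ} (hy : ‖y‖ < 1 / 400) (ht : ‖t - 1 / 4‖ ≤ 1 / 400) :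
    ‖gamt y t‖ ≤ 1 := by
  have h := gamt_lip_y hy (z := 0) (by simp) ht
  have h2 := gamt_lip_t (y := 0) (by simp) ht (s := 1 / 4) (by simp)
  rw [gamt_zero, sub_zero] at h2
  rw [sub_zero] at h
  have h3 : ‖gamt y t‖ ≤ ‖gamt y t - gamt 0 t‖ + ‖gamt 0 t‖ := by
    calc ‖gamt y t‖ = ‖(gamt y t - gamt 0 t) + gamt 0 t‖ := by congr 1; ring
      _ ≤ _ := norm_add_le _ _
  linarith

theorem gam_lip_y {y z t : ℂ} (hy : ‖y‖ < 1 / 400) (hz : ‖z‖ < 1 / 400)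
    (ht : ‖t - 1 / 4‖ ≤ 1 / 400) : ‖gam y t - gam z t‖ ≤ ‖y - z‖ := by
  have h := (convex_ball (0 : ℂ) (1 / 400)).norm_image_sub_le_of_norm_hasDerivWithin_le
    (f := fun y => gam y t) (f' := fun y => gamy y t) (C := 1) (x := z) (y := y)
    (fun x hx => (gam_hasDeriv_y (by rw [mem_ball_zero_iff] at hx; linarith) (by linarith)).hasDerivWithinAt)
    (fun x hx => gamy_bd (by rw [mem_ball_zero_iff] at hx; exact hx) ht)
    (by rw [mem_ball_zero_iff]; exact hz) (by rw [mem_ball_zero_iff]; exact hy)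
  rw [one_mul] at h
  exact h

theorem gam_lip_t {y t s : ℂ} (hy : ‖y‖ < 1 / 400) (ht : ‖t - 1 / 4‖ ≤ 1 / 400)
    (hs : ‖s - 1 / 4‖ ≤ 1 / 400) : ‖gam y t - gam y s‖ ≤ ‖t - s‖ := by
  have h := (convex_closedBall (1 / 4 : ℂ) (1 / 400)).norm_image_sub_le_of_norm_hasDerivWithin_le
    (f := fun t => gam y t) (f' := fun t => gamt y t) (C := 1) (x := s) (y := t)
    (fun x hx => (gam_hasDeriv_t (by linarith) (by
      rw [mem_closedBall_iff_norm] at hx; linarith)).hasDerivWithinAt)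
    (fun x hx => gamt_bd hy (by rw [mem_closedBall_iff_norm] at hx; exact hx))
    (by rw [mem_closedBall_iff_norm]; exact hs) (by rw [mem_closedBall_iff_norm]; exact ht)
  rw [one_mul] at h
  exact h

end Pool.Agent.Helper17.TF
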