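import Pool.Agent.Helper17.TF.Step

/-!
# Module L: the chain of critical point equations and the theorem
-/

namespace Pool.Agent.Helper17.TF

open Complex Finset Filter Topology
open Pool.Agent.Helper9.TB Pool.Agent.Helper9.TF

/-- partial critical point data -/
structure PCh (s : ℂ) (n : ℕ) (a : ℕ → ℕ) (y t : ℕ → ℂ) : Prop where
  near_y : ∀ i, i < n → ‖y i - 1 / a i‖ ≤ 3 / (a i) ^ 2
  near_t : ∀ j, j < n → ‖t j - 1 / 4‖ ≤ 1 / 400
  site : ∀ i, i < n → s * (-1) ^ i * (2 * Real.pi * I * (a i * y i - 1)) +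
    (if i = 0 then 0 else gamy (y i) (t (i - 1))) + gamy (y i) (t i) = 0
  kern : ∀ j, j < n → gamt (y j) (t j) + gamt (y (j + 1)) (t j) = 0

/-- the partial critical value -/
noncomputable def EVp (s : ℂ) (n : ℕ) (a : ℕ → ℕ) (y t : ℕ → ℂ) : ℂ :=
  ∑ i ∈ range n, s * (-1) ^ i * Ex (a i) (y i) +
    ∑ j ∈ range n, (gam (y j) (t j) + gam (y (j + 1)) (t j))

/-- pointwise conjugation -/
noncomputable def cs (y : ℕ → ℂ) (i : ℕ) : ℂ := (starRingEnd ℂ) (y i)

theorem norm_conj_sub_one_div (z : ℂ) (a : ℕ) : ‖(starRingEnd ℂ) z - 1 / a‖ = ‖z - 1 / a‖ := by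
  rw [← Complex.norm_conj]
  congr 1
  rw [map_sub, Complex.conj_conj, map_div₀, map_one, Complex.conj_natCast]

theorem norm_conj_sub_quarter (z : ℂ) : ‖(starRingEnd ℂ) z - 1 / 4‖ = ‖z - 1 / 4‖ := by
  rw [← Complex.norm_conj, map_sub, Complex.conj_conj, conj_quarter]

theorem conj_Ex (a : ℕ) (z : ℂ) : (starRingEnd ℂ) (Ex a z) = - Ex a ((starRingEnd ℂ) z) := by
  unfold Ex
  simp only [map_sub, map_mul, map_pow, Complex.conj_ofReal, Complex.conj_I, Complex.conj_natCast,
    map_ofNat]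
  ring

theorem PCh.conj {s : ℂ} (hs : (starRingEnd ℂ) s = s) {n : ℕ} {a : ℕ → ℕ} {y t : ℕ → ℂ}
    (h : PCh s n a y t) (hy : ∀ i, i ≤ n → ‖y i‖ < 1 / 20) :
    PCh (-s) n a (cs y) (cs t) ∧
      EVp (-s) n a (cs y) (cs t) = (starRingEnd ℂ) (EVp s n a y t) := by
  have hlt : ∀ j, j < n → ‖t j - 1 / 4‖ < 1 / 20 := fun j hj => by
    have := h.near_t j hj; linarith
  refine ⟨⟨?_, ?_, ?_, ?_⟩, ?_⟩
  · intro i hi
    unfold cs
    rw [norm_conj_sub_one_div]
    exact h.near_y i hi
  · intro j hj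
    unfold cs
    rw [norm_conj_sub_quarter]
    exact h.near_t j hj
  · intro i hi
    have h1 := congrArg (starRingEnd ℂ) (h.site i hi)
    unfold cs
    rw [gamy_conj (hy i hi.le) (hlt i hi)]
    have h2 : (if i = 0 then 0 else gamy ((starRingEnd ℂ) (y i)) ((starRingEnd ℂ) (t (i - 1)))) =
        (starRingEnd ℂ) (if i = 0 then 0 else gamy (y i) (t (i - 1))) := by
      split_ifs with h0
      · rw [map_zero]
      · exact gamy_conj (hy i hi.le) (hlt (i - 1) (by omega))
    rw [h2]
    simp only [map_add, map_mul, map_sub, map_pow, map_neg, map_one, Complex.conj_ofReal,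
      Complex.conj_I, Complex.conj_natCast, map_ofNat, map_zero, hs] at h1 ⊢
    linear_combination h1
  · intro j hj
    have h1 := congrArg (starRingEnd ℂ) (h.kern j hj)
    unfold cs
    rw [gamt_conj (hy j hj.le) (hlt j hj), gamt_conj (hy (j + 1) hj) (hlt j hj), ← map_add]
    rw [h1, map_zero]
  · unfold EVp
    rw [map_add, map_sum, map_sum]
    congr 1
    · refine Finset.sum_congr rfl fun i _ => ?_
      simp only [map_mul, map_pow, map_neg, map_one, hs, conj_Ex, cs]
      ring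
    · refine Finset.sum_congr rfl fun j hj => ?_
      rw [Finset.mem_range] at hj
      unfold cs
      rw [gam_conj (hy j hj.le) (hlt j hj), gam_conj (hy (j + 1) hj) (hlt j hj), ← map_add]

theorem PCh.extend {s : ℂ} {n : ℕ} (hs : s * (-1) ^ n = 1) {a : ℕ → ℕ} {y t : ℕ → ℂ}
    (h : PCh s n a y t) {S : ℂ → ℂ} {w t' : ℂ}
    (h1 : ‖y n - 1 / a n‖ ≤ 3 / (a n) ^ 2) (h2 : ‖t' - 1 / 4‖ ≤ 1 / 400)
    (h3 : G1 w t' (y n) = 0) (h4 : G2 (a n) S t' (y n) = 0)
    (h5 : S (y n) = if n = 0 then 0 else gamy (y n) (t (n - 1))) :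
    PCh s (n + 1) a (Function.update y (n + 1) w) (Function.update t n t') ∧
      EVp s (n + 1) a (Function.update y (n + 1) w) (Function.update t n t') =
        EVp s n a y t + (gam w t' + gam (y n) t' + Ex (a n) (y n)) := by
  have e1 : ∀ i, i ≤ n → Function.update y (n + 1) w i = y i := fun i hi =>
    Function.update_of_ne (by omega) _ _
  have e2 : ∀ i, i < n → Function.update t n t' i = t i := fun i hi =>
    Function.update_of_ne (by omega) _ _
  have e3 : Function.update y (n + 1) w (n + 1) = w := Function.update_self _ _ _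
  have e4 : Function.update t n t' n = t' := Function.update_self _ _ _
  refine ⟨⟨?_, ?_, ?_, ?_⟩, ?_⟩
  · intro i hi
    rw [e1 i (by omega)]
    rcases Nat.lt_succ_iff_lt_or_eq.1 hi with h6 | h6
    · exact h.near_y i h6
    · rw [h6]; exact h1
  · intro j hj
    rcases Nat.lt_succ_iff_lt_or_eq.1 hj with h6 | h6
    · rw [e2 j h6]; exact h.near_t j h6
    · rw [h6, e4]; exact h2
  · intro i hi
    rw [e1 i (by omega)]
    rcases Nat.lt_succ_iff_lt_or_eq.1 hi with h6 | h6
    · rw [e2 i h6]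
      have h7 : (if i = 0 then 0 else gamy (y i) (Function.update t n t' (i - 1))) =
          if i = 0 then 0 else gamy (y i) (t (i - 1)) := by
        split_ifs with h0
        · rfl
        · rw [e2 (i - 1) (by omega)]
      rw [h7]
      exact h.site i h6
    · subst h6
      rw [e4]
      have h7 : (if i = 0 then 0 else gamy (y i) (Function.update t i t' (i - 1))) =
          if i = 0 then 0 else gamy (y i) (t (i - 1)) := by
        split_ifs with h0
        · rfl
        · rw [e2 (i - 1) (by omega)]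
      rw [h7, ← h5, hs]
      unfold G2 at h4
      linear_combination h4
  · intro j hj
    rcases Nat.lt_succ_iff_lt_or_eq.1 hj with h6 | h6
    · rw [e2 j h6, e1 j h6.le, e1 (j + 1) h6]
      exact h.kern j h6
    · subst h6
      rw [e4, e1 j le_rfl, e3]
      unfold G1 at h3
      linear_combination h3
  · unfold EVp
    rw [Finset.sum_range_succ, Finset.sum_range_succ, e4, e1 n le_rfl, e3, hs]
    have s1 : ∑ x ∈ range n, s * (-1) ^ x * Ex (a x) (Function.update y (n + 1) w x) =
        ∑ x ∈ range n, s * (-1) ^ x * Ex (a x) (y x) := by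
      refine Finset.sum_congr rfl fun i hi => ?_
      rw [Finset.mem_range] at hi
      rw [e1 i hi.le]
    have s2 : ∑ x ∈ range n, (gam (Function.update y (n + 1) w x) (Function.update t n t' x) +
          gam (Function.update y (n + 1) w (x + 1)) (Function.update t n t' x)) =
        ∑ x ∈ range n, (gam (y x) (t x) + gam (y (x + 1)) (t x)) := by
      refine Finset.sum_congr rfl fun i hi => ?_
      rw [Finset.mem_range] at hi
      rw [e1 i hi.le, e1 (i + 1) hi, e2 i hi]
    rw [s1, s2]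
    ring

theorem HL_zero {ρ h0 e4 : ℝ} (he : 0 < e4) :
    HL ρ h0 e4 0 (fun _ _ => (1 : ℂ)) (fun _ => 0) (fun _ => 0) where
  good := Eventually.of_forall fun N =>
    { ent := differentiable_const _
      even := fun _ => rfl
      ne := fun _ _ => one_ne_zero
      lip := by
        intro y _ z _
        have h : ∀ y, sl N (fun _ => (1 : ℂ)) y = 0 := by
          intro y
          unfold Helper9.TF.sl
          rw [deriv_const, zero_div]
        rw [h, h]
        simp only [sub_zero, ofReal_zero, mul_zero, zero_mul, add_zero, norm_zero]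
        positivity
      glob := fun y _ _ => by
        have : 1 ≤ Real.exp (N * e4) := Real.one_le_exp (by positivity)
        simpa using this }
  csl := fun ε hε => Eventually.of_forall fun N z _ => by
    unfold Helper9.TF.sl
    rw [deriv_const, zero_div, sub_zero, norm_zero]
    exact hε.le
  clog := fun ε hε => Eventually.of_forall fun N z _ => by
    simpa using hε.le

theorem conj_neg_one_pow (n : ℕ) : (starRingEnd ℂ) ((-1 : ℂ) ^ n) = (-1) ^ n := by
  simp only [map_pow, map_neg, map_one]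

theorem chain {ρ h0 e4 : ℝ} {R0 : ℕ} (H : StepThm ρ h0 e4 R0) (a : ℕ → ℕ) (n : ℕ)
    (ha0 : ∀ i, i < n → R0 ≤ a i) (ha : ∀ i, i < n → 8 / ρ ≤ a i) :
    ∃ (S : ℂ → ℂ) (L : ℂ → ℝ), HL ρ h0 e4 (if n = 0 then 0 else 1) (fun N => fch N a n) S L ∧
      (n ≠ 0 → ∀ᶠ N in atTop, Decay ρ h0 N (fch N a n)) ∧
      ∀ w ∈ Metric.ball (0 : ℂ) ρ, ∃ y t : ℕ → ℂ, PCh ((-1) ^ n) n a y t ∧ y n = w ∧
        (S w = if n = 0 then 0 else gamy w (t (n - 1))) ∧ L w = (EVp ((-1) ^ n) n a y t).re := by
  induction n with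
  | zero =>
    refine ⟨fun _ => 0, fun _ => 0, HL_zero H.e4_pos, fun h => absurd rfl h, fun w _ => ?_⟩
    refine ⟨fun _ => w, fun _ => 0, ⟨?_, ?_, ?_, ?_⟩, rfl, ?_, ?_⟩
    · intro i hi; omega
    · intro i hi; omega
    · intro i hi; omega
    · intro i hi; omega
    · simp
    · simp [EVp]
  | succ n ih =>
    obtain ⟨S, L, hHL, _, hch⟩ := ih (fun i hi => ha0 i (by omega)) (fun i hi => ha i (by omega))
    set θ : ℝ := if n = 0 then 0 else 1 with hθ
    have hθ1 : θ = 0 ∨ θ = 1 := by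
      rw [hθ]; split_ifs
      · exact Or.inl rfl
      · exact Or.inr rfl
    have hh : hgt a n = (1 + θ) / (a n : ℝ) ^ 2 := by
      rw [hθ]; unfold hgt; split_ifs <;> norm_num
    obtain ⟨t', z', hsol, hdec, hHL'⟩ := HL_step H hθ1 (ha0 n (by omega)) (ha n (by omega)) hHL
    rw [← hh] at hdec hHL'
    refine ⟨cj (fun y => gamy y (t' y)), fun y => L (z' ((starRingEnd ℂ) y)) +
      (gam ((starRingEnd ℂ) y) (t' ((starRingEnd ℂ) y)) + gam (z' ((starRingEnd ℂ) y))
        (t' ((starRingEnd ℂ) y)) + Ex (a n) (z' ((starRingEnd ℂ) y))).re, ?_, ?_, ?_⟩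
    · rw [if_neg (Nat.succ_ne_zero n)]
      have h1 := HL.cj hHL'
      have h2 : (fun N => fch N a (n + 1)) = fun N => cj (nx N (a n) (hgt a n) (fch N a n)) :=
        funext fun N => fch_succ N a n
      rw [h2]
      exact h1
    · intro _
      refine hdec.mono fun N h => ?_
      rw [fch_succ]
      exact Decay.cj h
    · intro w hw
      have hw' := mem_conj hw
      obtain ⟨k1, k2, k3, k4⟩ := hsol _ hw'
      obtain ⟨y, t, p1, p2, p3, p4⟩ := hch (z' ((starRingEnd ℂ) w))
        (near_ball H.rho_pos H.rho_le (ha n (by omega)) k2)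
      have hs : ((-1 : ℂ) ^ n) * (-1) ^ n = 1 := by
        rw [← mul_pow]; norm_num
      rw [← p2] at k2 k3 k4 p3
      obtain ⟨q1, q2⟩ := p1.extend hs k2 k1 k3 k4 p3
      set Y := Function.update y (n + 1) ((starRingEnd ℂ) w) with hY
      set T := Function.update t n (t' ((starRingEnd ℂ) w)) with hT
      have hYn : Y (n + 1) = (starRingEnd ℂ) w := Function.update_self _ _ _
      have hTn : T n = t' ((starRingEnd ℂ) w) := Function.update_self _ _ _
      have hsm : ∀ i, i ≤ n + 1 → ‖Y i‖ < 1 / 20 := by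
        intro i hi
        rcases Nat.lt_succ_iff_lt_or_eq.1 (Nat.lt_succ_of_le hi) with h6 | h6
        · have := near_small H.rho_pos H.rho_le (ha i (by omega)) (q1.near_y i h6)
          linarith
        · rw [h6, hYn]
          have := ball_small H.rho_le hw'
          linarith
      obtain ⟨r1, r2⟩ := q1.conj (conj_neg_one_pow n) hsm
      have hsg : -((-1 : ℂ) ^ n) = (-1) ^ (n + 1) := by rw [pow_succ]; ring
      rw [hsg] at r1 r2
      refine ⟨cs Y, cs T, r1, ?_, ?_, ?_⟩
      · unfold cs; rw [hYn, Complex.conj_conj]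
      · rw [if_neg (Nat.succ_ne_zero n)]
        unfold cj cs
        rw [Nat.add_sub_cancel, hTn]
        have h9 := gamy_conj (y := (starRingEnd ℂ) w) (t := t' ((starRingEnd ℂ) w))
          (by have := ball_small H.rho_le hw'; linarith) (by linarith)
        rw [Complex.conj_conj] at h9
        rw [h9]
      · rw [r2, Complex.conj_re, q2, Complex.add_re, ← p4, p2]

/-- full critical point data from a chain with last site index `n` -/
theorem crit_of {n : ℕ} (hn : 1 ≤ n) {a : ℕ → ℕ} {y t : ℕ → ℂ} (h : PCh 1 n a y t)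
    (h1 : ‖y n - 1 / a n‖ ≤ 3 / (a n) ^ 2)
    (h2 : (-1) ^ n * (2 * Real.pi * I * (a n * y n - 1)) + gamy (y n) (t (n - 1)) = 0) :
    Crit (n + 1) a y t ∧ EV (n + 1) a y t = EVp 1 n a y t + (-1) ^ n * Ex (a n) (y n) := by
  refine ⟨⟨?_, ?_, ?_, ?_⟩, ?_⟩
  · intro i hi
    rcases Nat.lt_succ_iff_lt_or_eq.1 hi with h6 | h6
    · exact h.near_y i h6
    · rw [h6]; exact h1
  · intro j hj
    have := h.near_t j (by omega)
    linarith
  · intro i hi
    rcases Nat.lt_succ_iff_lt_or_eq.1 hi with h6 | h6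
    · have h7 := h.site i h6
      rw [one_mul] at h7
      rw [if_neg (show ¬ (i + 1 = n + 1) by omega)]
      exact h7
    · subst h6
      rw [if_pos rfl, if_neg (show ¬ (i = 0) by omega), add_zero]
      exact h2
  · intro j hj
    exact h.kern j (by omega)
  · unfold EV EVp
    rw [Finset.sum_range_succ, Nat.add_sub_cancel]
    unfold Ex
    simp only [one_mul]
    ring

theorem chain_limit {ρ h0 e4 : ℝ} {R0 : ℕ} (H : StepThm ρ h0 e4 R0) : ∃ R : ℕ, ∀ n : ℕ, 1 ≤ n →
    ∀ a : ℕ → ℕ, (∀ i, i ≤ n → R ≤ a i) → ∃ y t : ℕ → ℂ, Crit (n + 1) a y t ∧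
      Filter.Tendsto (fun N : ℕ => Real.log ‖site N (a n) (1 / (a n : ℝ) ^ 2) (fch N a n) 0‖ / N)
        Filter.atTop (nhds (EV (n + 1) a y t).re) := by
  refine ⟨max R0 (Nat.ceil (8 / ρ)), fun n hn a ha => ?_⟩
  have ha0 : ∀ i, i ≤ n → R0 ≤ a i := fun i hi => (le_max_left _ _).trans (ha i hi)
  have ha1 : ∀ i, i ≤ n → 8 / ρ ≤ a i := fun i hi => by
    have h1 : Nat.ceil (8 / ρ) ≤ a i := (le_max_right _ _).trans (ha i hi)
    exact (Nat.le_ceil _).trans (by exact_mod_cast h1)
  obtain ⟨S, L, hHL, hD, hch⟩ := chain H a n (fun i hi => ha0 i hi.le) (fun i hi => ha1 i hi.le)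
  have hn0 : n ≠ 0 := by omega
  rw [if_neg hn0] at hHL
  obtain ⟨z, hz1, hz2, hz3⟩ := HL_last H (ha0 n le_rfl) (ha1 n le_rfl) hHL (hD hn0)
  obtain ⟨y, t, p1, p2, p3, p4⟩ := hch z (near_ball H.rho_pos H.rho_le (ha1 n le_rfl) hz1)
  rw [if_neg hn0] at p3
  rw [← p2] at hz1 hz2 p3
  rcases Nat.even_or_odd n with he | ho
  · have hs : (-1 : ℂ) ^ n = 1 := he.neg_one_pow
    rw [hs] at p1 p4
    obtain ⟨q1, q2⟩ := crit_of hn p1 hz1 (by
      rw [hs, one_mul]
      rw [p3] at hz2
      linear_combination hz2)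
    refine ⟨y, t, q1, ?_⟩
    rw [q2, hs, one_mul, Complex.add_re, ← p4, p2]
    exact hz3
  · have hs : (-1 : ℂ) ^ n = -1 := ho.neg_one_pow
    rw [hs] at p1 p4
    have hsm : ∀ i, i ≤ n → ‖y i‖ < 1 / 20 := by
      intro i hi
      have h1 : ‖y i - 1 / a i‖ ≤ 3 / (a i) ^ 2 := by
        rcases Nat.lt_or_eq_of_le hi with h6 | h6
        · exact p1.near_y i h6
        · rw [h6]; exact hz1
      have := near_small H.rho_pos H.rho_le (ha1 i hi) h1
      linarith
    obtain ⟨r1, r2⟩ := p1.conj (by simp) hsm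
    rw [neg_neg] at r1 r2
    obtain ⟨q1, q2⟩ := crit_of hn r1 (by
      unfold cs; rw [norm_conj_sub_one_div]; exact hz1) (by
      unfold cs
      rw [gamy_conj (hsm n le_rfl) (by
        have := p1.near_t (n - 1) (by omega); linarith)]
      rw [p3] at hz2
      have h9 := congrArg (starRingEnd ℂ) hz2
      simp only [map_add, map_mul, map_sub, Complex.conj_ofReal, Complex.conj_I,
        Complex.conj_natCast, map_ofNat, map_zero] at h9
      rw [hs]
      linear_combination h9)
    refine ⟨cs y, cs t, q1, ?_⟩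
    have h10 : (-1 : ℂ) ^ n * Ex (a n) (cs y n) = (starRingEnd ℂ) (Ex (a n) (y n)) := by
      rw [hs, conj_Ex]
      unfold cs
      ring
    rw [q2, r2, h10, ← map_add, Complex.conj_re, Complex.add_re, ← p4, p2]
    exact hz3

end Pool.Agent.Helper17.TF
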