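import Pool.Agent.Helper17.TF.Basic

/-!
# Module L: the limiting system of two equations
-/

namespace Pool.Agent.Helper17.TF

open Complex Finset Filter Topology
open Pool.Agent.Helper9.TB Pool.Agent.Helper9.TF

/-- first equation -/
noncomputable def G1 (y t z : ℂ) : ℂ := gamt y t + gamt z t

/-- second equation -/
noncomputable def G2 (a : ℕ) (S : ℂ → ℂ) (t z : ℂ) : ℂ :=
  2 * Real.pi * I * a * z - 2 * Real.pi * I + gamy z t + S z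

theorem a_big {ρ : ℝ} (hρ : 0 < ρ) (hρ1 : ρ ≤ 1 / 1000) {a : ℕ} (ha : 8 / ρ ≤ a) :
    (8000 : ℝ) ≤ a := by
  have : (8000 : ℝ) ≤ 8 / ρ := by
    rw [le_div_iff₀ hρ]; linarith
  linarith

/-- the points near `1 / a` are in the half ball -/
theorem near_half {ρ : ℝ} (hρ : 0 < ρ) (hρ1 : ρ ≤ 1 / 1000) {a : ℕ} (ha : 8 / ρ ≤ a) {z : ℂ}
    (hz : ‖z - 1 / a‖ ≤ 3 / a ^ 2) : ‖z‖ ≤ ρ / 2 := by
  have h1 := a_big hρ hρ1 ha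
  have h0 : (0 : ℝ) < a := by linarith
  have h2 : ‖(1 / a : ℂ)‖ = 1 / a := by
    rw [norm_div, norm_one, Complex.norm_natCast]
  have h3 : ‖z‖ ≤ ‖z - 1 / a‖ + ‖(1 / a : ℂ)‖ := by
    calc ‖z‖ = ‖(z - 1 / a) + 1 / a‖ := by congr 1; ring
      _ ≤ _ := norm_add_le _ _
  have h4 : (3 : ℝ) / a ^ 2 ≤ 3 / a := by
    apply div_le_div_of_nonneg_left (by norm_num) h0
    nlinarith
  have h5 : (4 : ℝ) / a ≤ ρ / 2 := by
    rw [div_le_iff₀ h0]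
    rw [div_le_iff₀ hρ] at ha
    linarith
  have h6 : (1 : ℝ) / a + 3 / a = 4 / a := by ring
  rw [h2] at h3
  linarith

theorem near_ball {ρ : ℝ} (hρ : 0 < ρ) (hρ1 : ρ ≤ 1 / 1000) {a : ℕ} (ha : 8 / ρ ≤ a) {z : ℂ}
    (hz : ‖z - 1 / a‖ ≤ 3 / a ^ 2) : z ∈ Metric.ball (0 : ℂ) ρ := by
  rw [mem_ball_zero_iff]
  linarith [near_half hρ hρ1 ha hz]

theorem near_small {ρ : ℝ} (hρ : 0 < ρ) (hρ1 : ρ ≤ 1 / 1000) {a : ℕ} (ha : 8 / ρ ≤ a) {z : ℂ}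
    (hz : ‖z - 1 / a‖ ≤ 3 / a ^ 2) : ‖z‖ < 1 / 400 := by
  linarith [near_half hρ hρ1 ha hz]

theorem ball_small {ρ : ℝ} (hρ1 : ρ ≤ 1 / 1000) {z : ℂ} (hz : z ∈ Metric.ball (0 : ℂ) ρ) :
    ‖z‖ < 1 / 400 := by
  rw [mem_ball_zero_iff] at hz
  linarith

theorem S_lip {ρ θ : ℝ} (h0 : 0 ≤ θ) (h1 : θ ≤ 1) {S : ℂ → ℂ} (hS : LipS 0 ρ θ (1 / 2) S) {z w : ℂ}
    (hz : z ∈ Metric.ball (0 : ℂ) ρ) (hw : w ∈ Metric.ball (0 : ℂ) ρ) : ‖S z - S w‖ ≤ 8 * ‖z - w‖ := by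
  have h := hS z hz w hw
  have h5 : ‖S z - S w‖ ≤ ‖S z - S w + 2 * Real.pi * θ * (z - w)‖ + ‖2 * Real.pi * θ * (z - w)‖ := by
    calc ‖S z - S w‖ = ‖(S z - S w + 2 * Real.pi * θ * (z - w)) - 2 * Real.pi * θ * (z - w)‖ := by
          congr 1; ring
      _ ≤ _ := norm_sub_le _ _
  have h6 : ‖2 * Real.pi * θ * (z - w)‖ = 2 * Real.pi * (θ * ‖z - w‖) := by
    rw [show (2 : ℂ) * Real.pi * θ * (z - w) = 2 * Real.pi * (θ * (z - w)) by ring, norm_two_pi,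
      norm_mul, Complex.norm_real, Real.norm_of_nonneg h0]
  have h7 : θ * ‖z - w‖ ≤ ‖z - w‖ := by nlinarith [norm_nonneg (z - w)]
  have h8 : Real.pi < 3.15 := Real.pi_lt_d2
  have h9 : Real.pi * (θ * ‖z - w‖) ≤ 3.15 * ‖z - w‖ := by
    calc Real.pi * (θ * ‖z - w‖) ≤ Real.pi * ‖z - w‖ := by
          apply mul_le_mul_of_nonneg_left h7 Real.pi_pos.le
      _ ≤ _ := by apply mul_le_mul_of_nonneg_right h8.le (norm_nonneg _)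
  rw [h6] at h5
  nlinarith [norm_nonneg (z - w)]

theorem G1_low {y t z t' z' : ℂ} (hy : ‖y‖ < 1 / 400) (ht : ‖t - 1 / 4‖ ≤ 1 / 400)
    (ht' : ‖t' - 1 / 4‖ ≤ 1 / 400) (hz : ‖z‖ < 1 / 400) (hz' : ‖z'‖ < 1 / 400) :
    24 * ‖t - t'‖ - 8 * ‖z - z'‖ ≤ ‖G1 y t z - G1 y t' z'‖ := by
  have h1 := gamt_lip (y := y) (t := t) (s := t') (by linarith) (by linarith) (by linarith)
  have h2 := gamt_lip (y := z) (t := t) (s := t') (by linarith) (by linarith) (by linarith)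
  have h3 := gamt_lip_y hz hz' ht'
  have h4 : ‖8 * Real.pi * (t - t')‖ ≤ ‖G1 y t z - G1 y t' z'‖ +
      ‖gamt y t - gamt y t' + 4 * Real.pi * (t - t')‖ +
      ‖gamt z t - gamt z t' + 4 * Real.pi * (t - t')‖ + ‖gamt z t' - gamt z' t'‖ := by
    have e : 8 * Real.pi * (t - t') = -(G1 y t z - G1 y t' z') +
      (gamt y t - gamt y t' + 4 * Real.pi * (t - t')) +
      (gamt z t - gamt z t' + 4 * Real.pi * (t - t')) + (gamt z t' - gamt z' t') := by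
      unfold G1; ring
    rw [e]
    refine (norm_add_le _ _).trans ?_
    gcongr
    refine (norm_add_le _ _).trans ?_
    gcongr
    refine (norm_add_le _ _).trans ?_
    rw [norm_neg]
  have h5 : ‖8 * Real.pi * (t - t')‖ = 8 * Real.pi * ‖t - t'‖ := by
    rw [norm_mul, norm_mul, Complex.norm_ofNat, Complex.norm_real, Real.norm_of_nonneg Real.pi_pos.le]
  rw [h5] at h4
  have h6 : 3.14 < Real.pi := Real.pi_gt_d2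
  nlinarith [norm_nonneg (t - t')]

theorem G2_low {ρ θ : ℝ} (hρ : 0 < ρ) (hρ1 : ρ ≤ 1 / 1000) (h0 : 0 ≤ θ) (h1 : θ ≤ 1) {S : ℂ → ℂ}
    (hS : LipS 0 ρ θ (1 / 2) S) {a : ℕ} (ha : 8 / ρ ≤ a) {t z t' z' : ℂ}
    (ht : ‖t - 1 / 4‖ ≤ 1 / 400) (ht' : ‖t' - 1 / 4‖ ≤ 1 / 400) (hz : ‖z - 1 / a‖ ≤ 3 / a ^ 2)
    (hz' : ‖z' - 1 / a‖ ≤ 3 / a ^ 2) :
    (6 * a - 16) * ‖z - z'‖ - 8 * ‖t - t'‖ ≤ ‖G2 a S t z - G2 a S t' z'‖ := by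
  have h2 := gamy_lip_y (near_small hρ hρ1 ha hz) (near_small hρ hρ1 ha hz') ht
  have h3 := gamy_lip_t (near_small hρ hρ1 ha hz') ht ht'
  have h4 := S_lip h0 h1 hS (near_ball hρ hρ1 ha hz) (near_ball hρ hρ1 ha hz')
  have h5 : ‖2 * Real.pi * (I * a * (z - z'))‖ ≤ ‖G2 a S t z - G2 a S t' z'‖ +
      ‖gamy z t - gamy z' t‖ + ‖gamy z' t - gamy z' t'‖ + ‖S z - S z'‖ := by
    have e : 2 * Real.pi * (I * a * (z - z')) = (G2 a S t z - G2 a S t' z') -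
        (gamy z t - gamy z' t) - (gamy z' t - gamy z' t') - (S z - S z') := by
      unfold G2; ring
    rw [e]
    refine (norm_sub_le _ _).trans ?_
    gcongr
    refine (norm_sub_le _ _).trans ?_
    gcongr
    exact norm_sub_le _ _
  have h6 : ‖2 * Real.pi * (I * a * (z - z'))‖ = 2 * Real.pi * (a * ‖z - z'‖) := by
    rw [norm_two_pi, norm_mul, norm_mul, Complex.norm_I, Complex.norm_natCast, one_mul]
  rw [h6] at h5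
  have h7 : 3.14 < Real.pi := Real.pi_gt_d2
  have h8 : 0 ≤ (a : ℝ) * ‖z - z'‖ := by positivity
  nlinarith [norm_nonneg (z - z')]

theorem G_low {ρ θ : ℝ} (hρ : 0 < ρ) (hρ1 : ρ ≤ 1 / 1000) (h0 : 0 ≤ θ) (h1 : θ ≤ 1) {S : ℂ → ℂ}
    (hS : LipS 0 ρ θ (1 / 2) S) {a : ℕ} (ha : 8 / ρ ≤ a) {y t z t' z' : ℂ}
    (hy : y ∈ Metric.ball (0 : ℂ) ρ)
    (ht : ‖t - 1 / 4‖ ≤ 1 / 400) (ht' : ‖t' - 1 / 4‖ ≤ 1 / 400) (hz : ‖z - 1 / a‖ ≤ 3 / a ^ 2)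
    (hz' : ‖z' - 1 / a‖ ≤ 3 / a ^ 2) :
    ‖t - t'‖ + ‖z - z'‖ ≤ ‖G1 y t z - G1 y t' z'‖ + ‖G2 a S t z - G2 a S t' z'‖ := by
  have h2 := G1_low (ball_small hρ1 hy) ht ht' (near_small hρ hρ1 ha hz) (near_small hρ hρ1 ha hz')
  have h3 := G2_low hρ hρ1 h0 h1 hS ha ht ht' hz hz'
  have h4 := a_big hρ hρ1 ha
  have h5 : 6 * (a : ℝ) * ‖z - z'‖ ≥ 48000 * ‖z - z'‖ := by nlinarith [norm_nonneg (z - z')]
  nlinarith [norm_nonneg (z - z'), norm_nonneg (t - t')]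

theorem G1_up {y t z t' z' : ℂ} (hy : ‖y‖ < 1 / 400) (ht : ‖t - 1 / 4‖ ≤ 1 / 400)
    (ht' : ‖t' - 1 / 4‖ ≤ 1 / 400) (hz : ‖z‖ < 1 / 400) (hz' : ‖z'‖ < 1 / 400) :
    ‖G1 y t z - G1 y t' z'‖ ≤ 32 * ‖t - t'‖ + 8 * ‖z - z'‖ := by
  have h1 := gamt_lip_t hy ht ht'
  have h2 := gamt_lip_t hz ht ht'
  have h3 := gamt_lip_y hz hz' ht'
  have e : G1 y t z - G1 y t' z' = (gamt y t - gamt y t') + (gamt z t - gamt z t') +
      (gamt z t' - gamt z' t') := by unfold G1; ring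
  rw [e]
  refine (norm_add_le _ _).trans ?_
  have := norm_add_le (gamt y t - gamt y t') (gamt z t - gamt z t')
  linarith

theorem G2_up {ρ θ : ℝ} (hρ : 0 < ρ) (hρ1 : ρ ≤ 1 / 1000) (h0 : 0 ≤ θ) (h1 : θ ≤ 1) {S : ℂ → ℂ}
    (hS : LipS 0 ρ θ (1 / 2) S) {a : ℕ} (ha : 8 / ρ ≤ a) {t z t' z' : ℂ}
    (ht : ‖t - 1 / 4‖ ≤ 1 / 400) (ht' : ‖t' - 1 / 4‖ ≤ 1 / 400) (hz : ‖z - 1 / a‖ ≤ 3 / a ^ 2)
    (hz' : ‖z' - 1 / a‖ ≤ 3 / a ^ 2) :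
    ‖G2 a S t z - G2 a S t' z'‖ ≤ (8 * a + 16) * ‖z - z'‖ + 8 * ‖t - t'‖ := by
  have h2 := gamy_lip_y (near_small hρ hρ1 ha hz) (near_small hρ hρ1 ha hz') ht
  have h3 := gamy_lip_t (near_small hρ hρ1 ha hz') ht ht'
  have h4 := S_lip h0 h1 hS (near_ball hρ hρ1 ha hz) (near_ball hρ hρ1 ha hz')
  have e : G2 a S t z - G2 a S t' z' = 2 * Real.pi * (I * a * (z - z')) +
        (gamy z t - gamy z' t) + (gamy z' t - gamy z' t') + (S z - S z') := by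
      unfold G2; ring
  have h6 : ‖2 * Real.pi * (I * a * (z - z'))‖ = 2 * Real.pi * (a * ‖z - z'‖) := by
    rw [norm_two_pi, norm_mul, norm_mul, Complex.norm_I, Complex.norm_natCast, one_mul]
  have h5 : ‖G2 a S t z - G2 a S t' z'‖ ≤ ‖2 * Real.pi * (I * a * (z - z'))‖ +
      ‖gamy z t - gamy z' t‖ + ‖gamy z' t - gamy z' t'‖ + ‖S z - S z'‖ := by
    rw [e]
    refine (norm_add_le _ _).trans ?_
    gcongr
    refine (norm_add_le _ _).trans ?_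
    gcongr
    exact norm_add_le _ _
  rw [h6] at h5
  have h7 : Real.pi < 3.15 := Real.pi_lt_d2
  have h8 : 0 ≤ (a : ℝ) * ‖z - z'‖ := by positivity
  nlinarith [norm_nonneg (z - z')]

/-- existence of the exact solution -/
theorem sol_exists {ρ θ : ℝ} (hρ : 0 < ρ) (hρ1 : ρ ≤ 1 / 1000) (h0 : 0 ≤ θ) (h1 : θ ≤ 1) {S : ℂ → ℂ}
    (hS : LipS 0 ρ θ (1 / 2) S) {a : ℕ} (ha : 8 / ρ ≤ a) {y : ℂ}
    (hy : y ∈ Metric.ball (0 : ℂ) ρ)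
    (H : ∀ ε > 0, ∃ t z : ℂ, ‖t - 1 / 4‖ ≤ 1 / 400 ∧ ‖z - 1 / a‖ ≤ 3 / a ^ 2 ∧
      ‖G1 y t z‖ ≤ ε ∧ ‖G2 a S t z‖ ≤ ε) :
    ∃ t z : ℂ, ‖t - 1 / 4‖ ≤ 1 / 400 ∧ ‖z - 1 / a‖ ≤ 3 / a ^ 2 ∧ G1 y t z = 0 ∧ G2 a S t z = 0 := by
  set K : Set (ℂ × ℂ) := Metric.closedBall (1 / 4 : ℂ) (1 / 400) ×ˢ
    Metric.closedBall (1 / a : ℂ) (3 / a ^ 2) with hK
  have hKc : IsCompact K := (isCompact_closedBall _ _).prod (isCompact_closedBall _ _)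
  have hmem : ∀ p : ℂ × ℂ, p ∈ K ↔ ‖p.1 - 1 / 4‖ ≤ 1 / 400 ∧ ‖p.2 - 1 / a‖ ≤ 3 / a ^ 2 := by
    intro p
    rw [hK, Set.mem_prod, mem_closedBall_iff_norm, mem_closedBall_iff_norm]
  set Φ : ℂ × ℂ → ℝ := fun p => ‖G1 y p.1 p.2‖ + ‖G2 a S p.1 p.2‖ with hΦ
  have hcont : ContinuousOn Φ K := by
    have hL : LipschitzOnWith (Real.toNNReal (8 * a + 64)) Φ K := by
      refine LipschitzOnWith.of_dist_le_mul fun p hp q hq => ?_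
      rw [hmem] at hp hq
      have e1 := G1_up (ball_small hρ1 hy) hp.1 hq.1 (near_small hρ hρ1 ha hp.2)
        (near_small hρ hρ1 ha hq.2)
      have e2 := G2_up hρ hρ1 h0 h1 hS ha hp.1 hq.1 hp.2 hq.2
      have d1 : ‖p.1 - q.1‖ ≤ dist p q := by
        rw [← dist_eq_norm]; exact le_max_left _ _
      have d2 : ‖p.2 - q.2‖ ≤ dist p q := by
        rw [← dist_eq_norm]; exact le_max_right _ _
      rw [Real.coe_toNNReal _ (by positivity), Real.dist_eq]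
      have e3 := abs_norm_sub_norm_le (G1 y p.1 p.2) (G1 y q.1 q.2)
      have e4 := abs_norm_sub_norm_le (G2 a S p.1 p.2) (G2 a S q.1 q.2)
      have e5 : |Φ p - Φ q| ≤ |‖G1 y p.1 p.2‖ - ‖G1 y q.1 q.2‖| + |‖G2 a S p.1 p.2‖ - ‖G2 a S q.1 q.2‖| := by
        rw [hΦ]
        have : (‖G1 y p.1 p.2‖ + ‖G2 a S p.1 p.2‖) - (‖G1 y q.1 q.2‖ + ‖G2 a S q.1 q.2‖) =
          (‖G1 y p.1 p.2‖ - ‖G1 y q.1 q.2‖) + (‖G2 a S p.1 p.2‖ - ‖G2 a S q.1 q.2‖) := by ring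
        simp only
        rw [this]
        exact abs_add_le _ _
      have hd : 0 ≤ dist p q := dist_nonneg
      have ha0 : (0 : ℝ) ≤ a := Nat.cast_nonneg a
      have e6 : (8 * (a : ℝ) + 16) * ‖p.2 - q.2‖ ≤ (8 * a + 16) * dist p q :=
        mul_le_mul_of_nonneg_left d2 (by positivity)
      nlinarith
    exact hL.continuousOn
  have hne : K.Nonempty := by
    obtain ⟨t, z, h2, h3, _, _⟩ := H 1 one_pos
    exact ⟨(t, z), (hmem _).2 ⟨h2, h3⟩⟩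
  obtain ⟨p, hp, hmin⟩ := hKc.exists_isMinOn hne hcont
  have hz : Φ p = 0 := by
    by_contra hne0
    have hpos : 0 < Φ p := lt_of_le_of_ne (by positivity) (Ne.symm hne0)
    obtain ⟨t, z, h2, h3, h4, h5⟩ := H (Φ p / 4) (by positivity)
    have h6 : Φ p ≤ Φ (t, z) := hmin ((hmem (t, z)).2 ⟨h2, h3⟩)
    have h7 : Φ (t, z) ≤ Φ p / 4 + Φ p / 4 := add_le_add h4 h5
    linarith
  rw [hmem] at hp
  have h8 : ‖G1 y p.1 p.2‖ = 0 ∧ ‖G2 a S p.1 p.2‖ = 0 := by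
    have a1 := norm_nonneg (G1 y p.1 p.2)
    have a2 := norm_nonneg (G2 a S p.1 p.2)
    have a3 : ‖G1 y p.1 p.2‖ + ‖G2 a S p.1 p.2‖ = 0 := hz
    constructor <;> linarith
  exact ⟨p.1, p.2, hp.1, hp.2, norm_eq_zero.1 h8.1, norm_eq_zero.1 h8.2⟩

end Pool.Agent.Helper17.TF
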