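import Pool.Agent.Helper17.TF.Key

/-!
# Module L: uniform limits along the chain
-/

namespace Pool.Agent.Helper17.TF

open Complex Finset Filter Topology
open Pool.Agent.Helper9.TB Pool.Agent.Helper9.TF

/-- uniform convergence of the logarithms and of the logarithmic derivatives -/
structure HL (ρ h0 e4 θ : ℝ) (f : ℕ → ℂ → ℂ) (S : ℂ → ℂ) (L : ℂ → ℝ) : Prop where
  good : ∀ᶠ N in atTop, Good ρ h0 e4 N θ (f N)
  csl : ∀ ε > 0, ∀ᶠ N in atTop, ∀ z ∈ Metric.ball (0 : ℂ) ρ, ‖sl N (f N) z - S z‖ ≤ ε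
  clog : ∀ ε > 0, ∀ᶠ N : ℕ in atTop, ∀ z ∈ Metric.ball (0 : ℂ) ρ,
    |Real.log ‖f N z‖ / N - L z| ≤ ε

theorem HL.lipS {ρ h0 e4 θ : ℝ} {f : ℕ → ℂ → ℂ} {S : ℂ → ℂ} {L : ℂ → ℝ} (H : HL ρ h0 e4 θ f S L) :
    LipS 0 ρ θ (1 / 2) S := by
  intro y hy z hz
  refine le_of_forall_pos_le_add fun ε hε => ?_
  obtain ⟨N, hN1, hN2⟩ := (H.good.and (H.csl (ε / 2) (by positivity))).exists
  have h1 := hN1.lip y hy z hz
  have h2 := hN2 y hy
  have h3 := hN2 z hz
  have e : S y - S z + 2 * Real.pi * θ * (y - z) =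
      (sl N (f N) y - sl N (f N) z + 2 * Real.pi * θ * (y - z)) - (sl N (f N) y - S y) +
        (sl N (f N) z - S z) := by ring
  rw [e]
  refine (norm_add_le _ _).trans ?_
  have := norm_sub_le (sl N (f N) y - sl N (f N) z + 2 * Real.pi * θ * (y - z)) (sl N (f N) y - S y)
  linarith

theorem sl_zero {ρ h0 e4 θ : ℝ} {N : ℕ} {f : ℂ → ℂ} (hf : Good ρ h0 e4 N θ f) : sl N f 0 = 0 := by
  have h1 : deriv f 0 = 0 := by
    have h2 : (fun y => f (-y)) = f := funext hf.even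
    have h3 : deriv (fun y => f (-y)) 0 = - deriv f (-0) := deriv_comp_neg f 0
    rw [h2, neg_zero] at h3
    have h4 : (2 : ℂ) * deriv f 0 = 0 := by linear_combination h3
    simpa using h4
  unfold Helper9.TF.sl
  rw [h1, zero_div]

theorem sl_bd {ρ h0 e4 θ : ℝ} (hρ : 0 < ρ) (hρ1 : ρ ≤ 1 / 1000) (t0 : 0 ≤ θ) (t1 : θ ≤ 1)
    {N : ℕ} {f : ℂ → ℂ} (hf : Good ρ h0 e4 N θ f) {z : ℂ}
    (hz : z ∈ Metric.ball (0 : ℂ) ρ) : ‖sl N f z‖ ≤ 1 := by
  have h := S_lip t0 t1 hf.lip hz (Metric.mem_ball_self hρ)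
  rw [sl_zero hf, sub_zero, sub_zero] at h
  have h2 := ball_small hρ1 hz
  linarith

theorem log_lip {ρ h0 e4 θ : ℝ} (hρ : 0 < ρ) (hρ1 : ρ ≤ 1 / 1000) (t0 : 0 ≤ θ) (t1 : θ ≤ 1)
    {N : ℕ} (hN : 1 ≤ N) {f : ℂ → ℂ} (hf : Good ρ h0 e4 N θ f) {y z : ℂ}
    (hy : y ∈ Metric.ball (0 : ℂ) ρ) (hz : z ∈ Metric.ball (0 : ℂ) ρ) :
    |Real.log ‖f y‖ - Real.log ‖f z‖| ≤ N * ‖y - z‖ := by
  have hN0 : (0 : ℝ) < N := by exact_mod_cast hN
  have hd : DifferentiableOn ℂ (fun w => deriv f w / f w) (Metric.ball (0 : ℂ) ρ) := by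
    refine DifferentiableOn.div ?_ hf.ent.differentiableOn hf.ne
    exact (hf.ent.deriv).differentiableOn
  obtain ⟨g, hg⟩ := hd.isExactOn_ball
  have hbd : ∀ w ∈ Metric.ball (0 : ℂ) ρ, ‖deriv f w / f w‖ ≤ N := by
    intro w hw
    have h1 := sl_bd hρ hρ1 t0 t1 hf hw
    have h2 : deriv f w / f w = N * sl N f w := by
      unfold Helper9.TF.sl
      have : (N : ℂ) ≠ 0 := by exact_mod_cast hN0.ne'
      have := hf.ne w hw
      field_simp
    rw [h2, norm_mul, Complex.norm_natCast]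
    nlinarith
  have hlip := (convex_ball (0 : ℂ) ρ).norm_image_sub_le_of_norm_hasDerivWithin_le
    (fun w hw => (hg w hw).hasDerivWithinAt) hbd hz hy
  -- `f * exp (-g)` is constant
  have hconst : ∀ w ∈ Metric.ball (0 : ℂ) ρ, f w * Complex.exp (-g w) = f z * Complex.exp (-g z) := by
    intro w hw
    have hder : ∀ x ∈ Metric.ball (0 : ℂ) ρ,
        HasDerivWithinAt (fun x => f x * Complex.exp (-g x)) 0 (Metric.ball (0 : ℂ) ρ) x := by
      intro x hx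
      have h1 : HasDerivAt f (deriv f x) x := (hf.ent x).hasDerivAt
      have h2 : HasDerivAt (fun x => Complex.exp (-g x)) (Complex.exp (-g x) * (-(deriv f x / f x))) x :=
        ((hg x hx).neg).cexp
      have h3 := h1.mul h2
      have h4 : deriv f x * Complex.exp (-g x) + f x * (Complex.exp (-g x) * (-(deriv f x / f x))) = 0 := by
        have := hf.ne x hx
        field_simp
        ring
      rw [h4] at h3
      exact h3.hasDerivWithinAt
    have h5 := (convex_ball (0 : ℂ) ρ).norm_image_sub_le_of_norm_hasDerivWithin_le (C := 0) hder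
      (fun x _ => by simp) hz hw
    rw [zero_mul] at h5
    have h6 := norm_le_zero_iff.1 h5
    exact sub_eq_zero.1 h6
  have hval : ∀ w ∈ Metric.ball (0 : ℂ) ρ,
      Real.log ‖f w‖ = Real.log ‖f z * Complex.exp (-g z)‖ + (g w).re := by
    intro w hw
    have h1 : f w = (f z * Complex.exp (-g z)) * Complex.exp (g w) := by
      rw [← hconst w hw, mul_assoc, ← Complex.exp_add, neg_add_cancel, Complex.exp_zero, mul_one]
    have h2 : ‖f z * Complex.exp (-g z)‖ ≠ 0 := by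
      rw [norm_ne_zero_iff]
      exact mul_ne_zero (hf.ne z hz) (Complex.exp_ne_zero _)
    rw [h1, norm_mul, Complex.norm_exp, Real.log_mul h2 (Real.exp_ne_zero _), Real.log_exp]
  rw [hval y hy, hval z hz]
  have h7 : Real.log ‖f z * Complex.exp (-g z)‖ + (g y).re - (Real.log ‖f z * Complex.exp (-g z)‖ + (g z).re)
    = (g y - g z).re := by rw [Complex.sub_re]; ring
  rw [h7]
  exact (Complex.abs_re_le_norm _).trans hlip

theorem HL.lipL {ρ h0 e4 θ : ℝ} (hρ : 0 < ρ) (hρ1 : ρ ≤ 1 / 1000) (t0 : 0 ≤ θ) (t1 : θ ≤ 1)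
    {f : ℕ → ℂ → ℂ} {S : ℂ → ℂ} {L : ℂ → ℝ} (H : HL ρ h0 e4 θ f S L) {y z : ℂ}
    (hy : y ∈ Metric.ball (0 : ℂ) ρ) (hz : z ∈ Metric.ball (0 : ℂ) ρ) :
    |L y - L z| ≤ ‖y - z‖ := by
  refine le_of_forall_pos_le_add fun ε hε => ?_
  obtain ⟨N, ⟨hN1, hN2⟩, hN3⟩ := ((H.good.and (H.clog (ε / 2) (by positivity))).and
    (eventually_ge_atTop 1)).exists
  have hN0 : (0 : ℝ) < N := by exact_mod_cast hN3
  have h1 := log_lip hρ hρ1 t0 t1 hN3 hN1 hy hz
  have h2 := hN2 y hy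
  have h3 := hN2 z hz
  have h4 : |Real.log ‖f N y‖ / N - Real.log ‖f N z‖ / N| ≤ ‖y - z‖ := by
    rw [← sub_div, abs_div, abs_of_pos hN0, div_le_iff₀ hN0]
    linarith
  rw [abs_le] at *
  constructor <;> linarith [h2.1, h2.2, h3.1, h3.2, h4.1, h4.2]

/-! ### conjugation -/

theorem cj_deriv {F : ℂ → ℂ} (hF : Differentiable ℂ F) (y : ℂ) :
    HasDerivAt (cj F) ((starRingEnd ℂ) (deriv F ((starRingEnd ℂ) y))) y := by
  have h := (hF ((starRingEnd ℂ) y)).hasDerivAt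
  have h2 := h.conj_conj
  have h3 : cj F = (starRingEnd ℂ) ∘ F ∘ (starRingEnd ℂ) := rfl
  rw [h3]
  simpa using h2

theorem mem_conj {ρ : ℝ} {y : ℂ} (hy : y ∈ Metric.ball (0 : ℂ) ρ) :
    (starRingEnd ℂ) y ∈ Metric.ball (0 : ℂ) ρ := by
  rw [mem_ball_zero_iff] at *
  rwa [Complex.norm_conj]

theorem sl_cj {F : ℂ → ℂ} (hF : Differentiable ℂ F) (N : ℕ) (y : ℂ) :
    sl N (cj F) y = (starRingEnd ℂ) (sl N F ((starRingEnd ℂ) y)) := by
  unfold Helper9.TF.sl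
  rw [(cj_deriv hF y).deriv, map_div₀, map_mul, Complex.conj_natCast]
  rfl

theorem norm_cj (F : ℂ → ℂ) (y : ℂ) : ‖cj F y‖ = ‖F ((starRingEnd ℂ) y)‖ := by
  unfold cj; rw [Complex.norm_conj]

theorem Good.cj {ρ h0 e4 θ : ℝ} {N : ℕ} {F : ℂ → ℂ} (hF : Good ρ h0 e4 N θ F) :
    Good ρ h0 e4 N θ (cj F) where
  ent := fun y => (cj_deriv hF.ent y).differentiableAt
  even := fun y => by
    unfold Helper17.TF.cj
    rw [map_neg, hF.even]
  ne := fun y hy => by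
    rw [← norm_ne_zero_iff, norm_cj, norm_ne_zero_iff]
    exact hF.ne _ (mem_conj hy)
  lip := by
    intro y hy z hz
    rw [sl_cj hF.ent, sl_cj hF.ent]
    have h := hF.lip _ (mem_conj hy) _ (mem_conj hz)
    have e : (starRingEnd ℂ) (sl N F ((starRingEnd ℂ) y)) - (starRingEnd ℂ) (sl N F ((starRingEnd ℂ) z)) +
        2 * Real.pi * θ * (y - z) = (starRingEnd ℂ) (sl N F ((starRingEnd ℂ) y) -
          sl N F ((starRingEnd ℂ) z) + 2 * Real.pi * θ * ((starRingEnd ℂ) y - (starRingEnd ℂ) z)) := by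
      simp only [map_add, map_sub, map_mul, Complex.conj_conj, Complex.conj_ofReal, map_ofNat]
    rw [e, Complex.norm_conj, ← Complex.norm_conj (y - z), map_sub]
    exact h
  glob := fun y h1 h2 => by
    rw [norm_cj, norm_cj, map_zero]
    exact hF.glob _ (by rwa [Complex.conj_re]) (by rwa [Complex.conj_im, abs_neg])

theorem Decay.cj {ρ h0 : ℝ} {N : ℕ} {F : ℂ → ℂ} (hF : Decay ρ h0 N F) :
    Decay ρ h0 N (cj F) := fun y h1 h2 h3 => by
  rw [norm_cj, norm_cj, map_zero]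
  exact hF _ (by rwa [Complex.conj_re]) (by rwa [Complex.conj_im, abs_neg]) (by rwa [Complex.conj_re])

theorem HL.cj {ρ h0 e4 θ : ℝ} {f : ℕ → ℂ → ℂ} {S : ℂ → ℂ} {L : ℂ → ℝ} (H : HL ρ h0 e4 θ f S L) :
    HL ρ h0 e4 θ (fun N => cj (f N)) (cj S) (fun y => L ((starRingEnd ℂ) y)) where
  good := H.good.mono fun N h => Good.cj h
  csl := fun ε hε => by
    filter_upwards [H.good, H.csl ε hε] with N h1 h2 z hz
    rw [sl_cj h1.ent]
    unfold Helper17.TF.cj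
    rw [← map_sub, Complex.norm_conj]
    exact h2 _ (mem_conj hz)
  clog := fun ε hε => by
    filter_upwards [H.clog ε hε] with N h2 z hz
    rw [norm_cj]
    exact h2 _ (mem_conj hz)

end Pool.Agent.Helper17.TF
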